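import Pool.Agent.Y366.LPM.Formula

/-!
# MP_b5ca43_co, Q1: lattice path matroids are characterised by a sentence of `MS_0`

We state the full language of `MS_0` (with named variables and all the connectives of the problem
file), its semantics in a matroid, and lattice path matroids, and prove that some sentence holds in
a finite matroid exactly when it is a lattice path matroid.
-/

set_option autoImplicit false

namespace Pool.Agent.Results.MP_b5ca43_co.LatticePathMSO

open Set

/-- Formulas of `MS_0`. The variables `X_0, X_1, X_2, ...` are indexed by natural numbers. -/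
inductive Formula : Type
  /-- the atomic formula `Ind(X_i)` -/
  | ind (i : ℕ) : Formula
  /-- the atomic formula `X_i ⊆ X_j` -/
  | sub (i j : ℕ) : Formula
  /-- negation -/
  | neg (φ : Formula) : Formula
  /-- conjunction -/
  | and (φ ψ : Formula) : Formula
  /-- disjunction -/
  | or (φ ψ : Formula) : Formula
  /-- implication -/
  | imp (φ ψ : Formula) : Formula
  /-- `∃ X_i, φ` -/
  | ex (i : ℕ) (φ : Formula) : Formula
  /-- `∀ X_i, φ` -/
  | all (i : ℕ) (φ : Formula) : Formula

namespace Formula

/-- The set of (indices of) free variables of a formula. -/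
def free : Formula → Set ℕ
  | ind i => {i}
  | sub i j => {i, j}
  | neg φ => free φ
  | and φ ψ => free φ ∪ free ψ
  | or φ ψ => free φ ∪ free ψ
  | imp φ ψ => free φ ∪ free ψ
  | ex i φ => free φ \ {i}
  | all i φ => free φ \ {i}

/-- A sentence is a formula without free variables. -/
def IsSentence (φ : Formula) : Prop := free φ = ∅

/-- Satisfaction of a formula in the matroid `M` under the assignment `v` of sets of elements to
the variables; the quantifiers range over the subsets of the ground set of `M`. -/
def Sat {α : Type} (M : Matroid α) : Formula → (ℕ → Set α) → Prop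
  | ind i, v => M.Indep (v i)
  | sub i j, v => v i ⊆ v j
  | neg φ, v => ¬ Sat M φ v
  | and φ ψ, v => Sat M φ v ∧ Sat M ψ v
  | or φ ψ, v => Sat M φ v ∨ Sat M ψ v
  | imp φ ψ, v => Sat M φ v → Sat M ψ v
  | ex i φ, v => ∃ S : Set α, S ⊆ M.E ∧ Sat M φ (Function.update v i S)
  | all i φ, v => ∀ S : Set α, S ⊆ M.E → Sat M φ (Function.update v i S)

end Formula

/-- The height reached after `i` steps: the number of North steps among the first `i` steps.
A path with `n` unit steps is a function `R : Fin n → Bool`; `R j = true` means that step `j + 1`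
is North, and `R j = false` that it is East. -/
noncomputable def height {n : ℕ} (R : Fin n → Bool) (i : ℕ) : ℕ :=
  {j : Fin n | (j : ℕ) < i ∧ R j = true}.ncard

/-- `R` is a lattice path from `(0, 0)` to `(m, r)`: exactly `r` of its `m + r` unit steps are
North. -/
def IsLatticePath (m r : ℕ) (R : Fin (m + r) → Bool) : Prop := {j | R j = true}.ncard = r

/-- `P` never goes above `Q`: after every number of steps, the height of `P` is at most the height
of `Q` (the two paths are then on the same antidiagonal). -/
def NeverAbove {n : ℕ} (P Q : Fin n → Bool) : Prop := ∀ i, height P i ≤ height Q i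

/-- `M` is a lattice path matroid: it is isomorphic to `M[P, Q]` for some lattice paths `P, Q` from
`(0, 0)` to some `(m, r)`, `P` never going above `Q`. The isomorphism is the bijection `e` from the
indices of the steps to the ground set of `M`, under which the bases of `M` are exactly the images
of the sets of North steps of the lattice paths `R` lying in the region between `P` and `Q`. -/
def IsLatticePathMatroid {α : Type} (M : Matroid α) : Prop :=
  ∃ (m r : ℕ) (P Q : Fin (m + r) → Bool), IsLatticePath m r P ∧ IsLatticePath m r Q ∧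
    NeverAbove P Q ∧
    ∃ e : Fin (m + r) → α, Function.Injective e ∧ range e = M.E ∧
      ∀ B : Set α, M.IsBase B ↔
        ∃ R : Fin (m + r) → Bool, IsLatticePath m r R ∧ NeverAbove P R ∧ NeverAbove R Q ∧
          B = e '' {j | R j = true}

/-! ### Translation of de Bruijn formulas -/

open Pool.Agent.H761R3.MS0 in
/-- translation of a de Bruijn formula at depth `d`; the de Bruijn index `i` stands for the named
variable `d - 1 - i` -/
def tr : ℕ → Fml → Formula
  | d, .sub i j => .sub (d - 1 - i) (d - 1 - j)
  | d, .ind i => .ind (d - 1 - i)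
  | d, .neg φ => .neg (tr d φ)
  | d, .and φ ψ => .and (tr d φ) (tr d ψ)
  | d, .all φ => .all d (tr (d + 1) φ)

open Pool.Agent.H761R3.MS0 in
theorem free_tr (φ : Fml) : ∀ d, φ.FreeBelow d → ∀ n ∈ (tr d φ).free, n < d := by
  induction φ with
  | sub i j =>
    rintro d ⟨h1, h2⟩ n hn
    rcases hn with hn | hn
    · rw [hn]; omega
    · rw [mem_singleton_iff] at hn
      rw [hn]; omega
  | ind i =>
    intro d h n hn
    have h' : i < d := h
    have hn' : n = d - 1 - i := hn
    omega
  | neg φ ih =>
    intro d h n hn
    exact ih d h n hn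
  | and φ ψ ih1 ih2 =>
    rintro d ⟨h1, h2⟩ n (hn | hn)
    · exact ih1 d h1 n hn
    · exact ih2 d h2 n hn
  | all φ ih =>
    rintro d h n ⟨hn, hn2⟩
    have h3 := ih (d + 1) h n hn
    have h4 : n ≠ d := hn2
    omega

open Pool.Agent.H761R3.MS0 in
theorem sat_tr {α : Type} (M : Matroid α) (φ : Fml) : ∀ (d : ℕ) (v w : ℕ → Set α),
    φ.FreeBelow d → (∀ i < d, v i = w (d - 1 - i)) → ((tr d φ).Sat M w ↔ φ.Sat M v) := by
  induction φ with
  | sub i j =>
    rintro d v w ⟨h1, h2⟩ hvw
    show w _ ⊆ w _ ↔ v i ⊆ v j
    rw [hvw i h1, hvw j h2]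
  | ind i =>
    intro d v w h hvw
    show M.Indep (w _) ↔ M.Indep (v i)
    rw [hvw i h]
  | neg φ ih =>
    intro d v w h hvw
    exact not_congr (ih d v w h hvw)
  | and φ ψ ih1 ih2 =>
    rintro d v w ⟨h1, h2⟩ hvw
    exact and_congr (ih1 d v w h1 hvw) (ih2 d v w h2 hvw)
  | all φ ih =>
    intro d v w h hvw
    refine forall_congr' fun S => imp_congr_right fun _ => ?_
    refine ih (d + 1) _ _ h fun i hi => ?_
    cases i with
    | zero =>
      rw [cns_zero, show d + 1 - 1 - 0 = d by omega, Function.update_self]
    | succ i =>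
      rw [cns_succ, hvw i (by omega), Function.update_of_ne (by omega)]
      congr 1
      omega

theorem isLatticePathMatroid_iff {α : Type} (M : Matroid α) :
    IsLatticePathMatroid M ↔ Pool.Agent.Y366.LPM.IsLPM M := by
  unfold IsLatticePathMatroid Pool.Agent.Y366.LPM.IsLPM
  constructor
  · rintro ⟨m, r, P, Q, hP, hQ, hPQ, e, he, hE, hB⟩
    refine ⟨m, r, P, Q, hP, hQ, hPQ, e, he, hE, fun B => (hB B).trans ?_⟩
    constructor
    · rintro ⟨R, h1, h2, h3, h4⟩
      exact ⟨R, h1, fun i => ⟨h2 i, h3 i⟩, h4⟩
    · rintro ⟨R, h1, h2, h4⟩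
      exact ⟨R, h1, fun i => (h2 i).1, fun i => (h2 i).2, h4⟩
  · rintro ⟨m, r, P, Q, hP, hQ, hPQ, e, he, hE, hB⟩
    refine ⟨m, r, P, Q, hP, hQ, hPQ, e, he, hE, fun B => (hB B).trans ?_⟩
    constructor
    · rintro ⟨R, h1, h2, h4⟩
      exact ⟨R, h1, fun i => (h2 i).1, fun i => (h2 i).2, h4⟩
    · rintro ⟨R, h1, h2, h3, h4⟩
      exact ⟨R, h1, fun i => ⟨h2 i, h3 i⟩, h4⟩

/-- There is a sentence `φ` of `MS_0` which holds in a finite matroid `M` (under any assignment, a
sentence having no free variables) exactly when `M` is a lattice path matroid. -/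
theorem result : ∃ φ : Formula, φ.IsSentence ∧
    ∀ (α : Type) (M : Matroid α), M.E.Finite → ∀ v : ℕ → Set α,
      (φ.Sat M v ↔ IsLatticePathMatroid M) := by
  obtain ⟨φ, hφ, h⟩ := Pool.Agent.Y366.LPM.exists_fml
  refine ⟨tr 0 φ, ?_, fun α M hM v => ?_⟩
  · exact eq_empty_of_forall_notMem fun n hn => Nat.not_lt_zero n (free_tr φ 0 hφ n hn)
  · rw [sat_tr M φ 0 v v hφ (fun i hi => absurd hi (Nat.not_lt_zero i)), h α M hM v,
      isLatticePathMatroid_iff]

end Pool.Agent.Results.MP_b5ca43_co.LatticePathMSO
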